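import Mathlib

set_option autoImplicit false

namespace Pool.Agent.MP_92c74b_an

open Metric Set MeasureTheory

section General

variable {E : Type} [NormedAddCommGroup E] [InnerProductSpace ℝ E] [FiniteDimensional ℝ E]

lemma det_interp (t : Fin (Module.finrank ℝ E + 1) → ℝ) (ht : Function.Injective t) :
    ∃ c : Fin (Module.finrank ℝ E + 1) → ℝ, ∑ k, c k = 1 ∧ ∀ A : E →L[ℝ] E,
      (ContinuousLinearMap.id ℝ E + A).det
        = ∑ k, c k * (ContinuousLinearMap.id ℝ E + t k • A).det := by
  classical
  refine ⟨fun k => (Lagrange.basis Finset.univ t k).eval 1, ?_, ?_⟩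
  · rw [← Polynomial.eval_finsetSum, Lagrange.sum_basis ht.injOn Finset.univ_nonempty]
    simp
  · intro A
    let b := Module.finBasis ℝ E
    let M := LinearMap.toMatrix b b (A : E →ₗ[ℝ] E)
    let p : Polynomial ℝ := Matrix.det ((Polynomial.X : Polynomial ℝ) • M.map Polynomial.C
      + (1 : Matrix (Fin (Module.finrank ℝ E)) (Fin (Module.finrank ℝ E)) ℝ).map Polynomial.C)
    have hp : ∀ s : ℝ, p.eval s = (ContinuousLinearMap.id ℝ E + s • A).det := by
      intro s
      have h1 : p.eval s = (Polynomial.evalRingHom s) p := rfl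
      rw [h1, RingHom.map_det, ContinuousLinearMap.det, ← LinearMap.det_toMatrix b]
      congr 1
      ext i j
      simp [M, Matrix.one_apply, add_comm]
      split_ifs <;> simp [mul_comm]
    have hdeg : p.degree < (Finset.univ : Finset (Fin (Module.finrank ℝ E + 1))).card := by
      have h := Polynomial.natDegree_det_X_add_C_le M
        (1 : Matrix (Fin (Module.finrank ℝ E)) (Fin (Module.finrank ℝ E)) ℝ)
      rw [Fintype.card_fin] at h
      rw [Finset.card_univ, Fintype.card_fin]
      refine lt_of_le_of_lt Polynomial.degree_le_natDegree ?_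
      exact_mod_cast Nat.lt_succ_of_le h
    have h2 := Lagrange.eq_interpolate ht.injOn hdeg
    have h3 := hp 1
    rw [one_smul] at h3
    rw [← h3, h2, Lagrange.interpolate_apply, Polynomial.eval_finsetSum]
    refine Finset.sum_congr rfl fun k _ => ?_
    rw [Polynomial.eval_mul, Polynomial.eval_C, hp, mul_comm]

theorem no_retraction {R : ℝ} (hR : 0 < R) (r : E → E) (hr : ContDiff ℝ 1 r)
    (hnorm : ∀ x ∈ closedBall (0:E) R, ‖r x‖ = R) (hid : ∀ x, ‖x‖ = R → r x = x) : False := by
  borelize E
  let μ : Measure E := Measure.addHaar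
  let g : E → E := fun x => r x - x
  have hg : ContDiff ℝ 1 g := hr.sub contDiff_id
  have hgd : Differentiable ℝ g := hg.differentiable one_ne_zero
  have hDg : Continuous (fderiv ℝ g) := hg.continuous_fderiv one_ne_zero
  obtain ⟨L0, hL0⟩ := (isCompact_closedBall (0:E) R).exists_bound_of_continuousOn hDg.continuousOn
  set L := max L0 1 with hLdef
  have hL : ∀ x ∈ closedBall (0:E) R, ‖fderiv ℝ g x‖ ≤ L := fun x hx =>
    le_trans (hL0 x hx) (le_max_left _ _)
  have hL1 : 1 ≤ L := le_max_right _ _
  obtain ⟨ε, hε, hdet⟩ : ∃ ε > 0, ∀ A : E →L[ℝ] E, ‖A‖ < ε →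
      0 < (ContinuousLinearMap.id ℝ E + A).det := by
    have hc : Continuous fun A : E →L[ℝ] E => (ContinuousLinearMap.id ℝ E + A).det :=
      ContinuousLinearMap.continuous_det.comp (continuous_const.add continuous_id)
    have h0 : (0:ℝ) < (ContinuousLinearMap.id ℝ E + (0 : E →L[ℝ] E)).det := by
      simp [ContinuousLinearMap.det]
    have := hc.continuousAt.eventually (lt_mem_nhds h0)
    obtain ⟨ε, hε, h⟩ := Metric.eventually_nhds_iff.mp this
    exact ⟨ε, hε, fun A hA => h (by simpa using hA)⟩
  set t0 : ℝ := min ε (1 / 2) / (2 * L) with ht0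
  have hmin : 0 < min ε (1 / 2) := lt_min hε (by norm_num)
  have ht0pos : 0 < t0 := by positivity
  have ht0L : t0 * L = min ε (1 / 2) / 2 := by rw [ht0]; field_simp
  have key : ∀ t : ℝ, 0 < t → t ≤ t0 →
      ∫ x in ball (0:E) R, (ContinuousLinearMap.id ℝ E + t • fderiv ℝ g x).det ∂μ
        = (μ (ball (0:E) R)).toReal := by
    intro t ht htt
    have htL : t * L ≤ min ε (1 / 2) / 2 := by
      rw [← ht0L]; exact mul_le_mul_of_nonneg_right htt (by linarith)
    have hm1 := min_le_left ε (1 / 2)
    have hm2 := min_le_right ε (1 / 2)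
    have ht1 : t < 1 := by nlinarith
    let f : E → E := fun x => x + t • g x
    have hfd : ∀ x, HasFDerivAt f (ContinuousLinearMap.id ℝ E + t • fderiv ℝ g x) x := fun x =>
      (hasFDerivAt_id x).add ((hgd x).hasFDerivAt.const_smul t)
    have happ : ApproximatesLinearOn f
        ((ContinuousLinearEquiv.refl ℝ E : E ≃L[ℝ] E) : E →L[ℝ] E) (ball (0:E) R) (1 / 2) := by
      intro x hx y hy
      have h1 := (convex_closedBall (0:E) R).norm_image_sub_le_of_norm_fderiv_le
        (fun z _ => hgd z) hL (ball_subset_closedBall hy) (ball_subset_closedBall hx)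
      have h2 : f x - f y - ((ContinuousLinearEquiv.refl ℝ E : E ≃L[ℝ] E) : E →L[ℝ] E) (x - y)
          = t • (g x - g y) := by
        simp [f, smul_sub]
        abel
      rw [h2, norm_smul, Real.norm_of_nonneg ht.le]
      have h3 := norm_nonneg (x - y)
      have : t * ‖g x - g y‖ ≤ t * (L * ‖x - y‖) := mul_le_mul_of_nonneg_left h1 ht.le
      push_cast
      nlinarith
    have hc : Subsingleton E ∨ (1 / 2 : NNReal)
        < ‖((ContinuousLinearEquiv.refl ℝ E : E ≃L[ℝ] E).symm : E →L[ℝ] E)‖₊⁻¹ := by
      rcases subsingleton_or_nontrivial E with h | h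
      · exact Or.inl h
      · right
        simp
        norm_num
    have hinj : InjOn f (ball (0:E) R) := happ.injOn hc
    have hopen : IsOpen (f '' ball (0:E) R) :=
      happ.open_image (ContinuousLinearEquiv.refl ℝ E).toNonlinearRightInverse isOpen_ball hc
    have hfc : Continuous f := continuous_iff_continuousAt.mpr fun x => (hfd x).continuousAt
    have hsub : f '' ball (0:E) R ⊆ ball (0:E) R := by
      rintro _ ⟨x, hx, rfl⟩
      have h1 := hnorm x (ball_subset_closedBall hx)
      rw [mem_ball_zero_iff] at hx ⊢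
      have h2 : f x = (1 - t) • x + t • r x := by
        simp only [f, g, smul_sub, sub_smul, one_smul]
        abel
      rw [h2]
      refine lt_of_le_of_lt (norm_add_le _ _) ?_
      rw [norm_smul, norm_smul, Real.norm_of_nonneg ht.le, Real.norm_of_nonneg (by linarith), h1]
      nlinarith
    have himg : f '' ball (0:E) R = ball (0:E) R := by
      refine Subset.antisymm hsub ?_
      refine (convex_ball (0:E) R).isPreconnected.subset_of_closure_inter_subset hopen ?_ ?_
      · exact ⟨f 0, hsub ⟨0, mem_ball_self hR, rfl⟩, ⟨0, mem_ball_self hR, rfl⟩⟩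
      · rintro y ⟨hy1, hy2⟩
        have hcl : IsClosed (f '' closedBall (0:E) R) :=
          ((isCompact_closedBall (0:E) R).image hfc).isClosed
        obtain ⟨x, hx, rfl⟩ := closure_minimal (image_mono ball_subset_closedBall) hcl hy1
        refine ⟨x, ?_, rfl⟩
        rw [mem_closedBall_zero_iff] at hx
        rw [mem_ball_zero_iff] at hy2 ⊢
        by_contra hcon
        have h3 : ‖x‖ = R := le_antisymm hx (not_lt.mp hcon)
        have h4 : f x = x := by simp [f, g, hid x h3]
        rw [h4] at hy2
        linarith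
    have hcv := integral_image_eq_integral_abs_det_fderiv_smul μ measurableSet_ball
      (fun x _ => (hfd x).hasFDerivWithinAt) hinj (fun _ => (1:ℝ))
    rw [himg] at hcv
    simp only [integral_const, smul_eq_mul, mul_one, MeasurableSet.univ,
      measureReal_restrict_apply, univ_inter] at hcv
    rw [← Measure.real, hcv]
    refine setIntegral_congr_fun measurableSet_ball fun x hx => ?_
    refine (abs_of_pos (hdet _ ?_)).symm
    rw [norm_smul, Real.norm_of_nonneg ht.le]
    have := mul_le_mul_of_nonneg_left (hL x (ball_subset_closedBall hx)) ht.le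
    linarith
  let t : Fin (Module.finrank ℝ E + 1) → ℝ := fun k => t0 / (k.val + 1)
  have ht : Function.Injective t := by
    intro k l hkl
    have h1 : (k.val : ℝ) + 1 = l.val + 1 := by
      have hk : (0:ℝ) < k.val + 1 := by positivity
      have hl : (0:ℝ) < l.val + 1 := by positivity
      simp only [t] at hkl
      rw [div_eq_div_iff hk.ne' hl.ne'] at hkl
      exact (mul_left_cancel₀ ht0pos.ne' hkl).symm
    have h2 : (k.val : ℝ) = l.val := by linarith
    exact Fin.ext (by exact_mod_cast h2)
  obtain ⟨c, hc1, hc2⟩ := det_interp t ht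
  have hint : ∀ s : ℝ, IntegrableOn
      (fun x => (ContinuousLinearMap.id ℝ E + s • fderiv ℝ g x).det) (ball (0:E) R) μ := by
    intro s
    have hc : Continuous fun x => (ContinuousLinearMap.id ℝ E + s • fderiv ℝ g x).det :=
      ContinuousLinearMap.continuous_det.comp (continuous_const.add (hDg.const_smul s))
    exact (hc.continuousOn.integrableOn_compact (isCompact_closedBall (0:E) R)).mono_set
      ball_subset_closedBall
  have h1 : ∫ x in ball (0:E) R, (ContinuousLinearMap.id ℝ E + fderiv ℝ g x).det ∂μ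
      = (μ (ball (0:E) R)).toReal := by
    have e : (fun x => (ContinuousLinearMap.id ℝ E + fderiv ℝ g x).det) = fun x =>
        ∑ k, c k * (ContinuousLinearMap.id ℝ E + t k • fderiv ℝ g x).det :=
      funext fun x => hc2 _
    rw [e, integral_finsetSum _ (fun k _ => (hint (t k)).const_mul (c k))]
    have : ∀ k, ∫ x in ball (0:E) R, c k * (ContinuousLinearMap.id ℝ E + t k • fderiv ℝ g x).det ∂μ
        = c k * (μ (ball (0:E) R)).toReal := by
      intro k
      rw [integral_const_mul, key (t k) (by positivity)]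
      exact div_le_self ht0pos.le (by linarith [Nat.cast_nonneg (α := ℝ) k.val])
    simp only [this]
    rw [← Finset.sum_mul, hc1, one_mul]
  have h2 : ∫ x in ball (0:E) R, (ContinuousLinearMap.id ℝ E + fderiv ℝ g x).det ∂μ = 0 := by
    refine setIntegral_eq_zero_of_forall_eq_zero fun x hx => ?_
    have hrd : HasFDerivAt r (ContinuousLinearMap.id ℝ E + fderiv ℝ g x) x := by
      have := (hasFDerivAt_id x).add (hgd x).hasFDerivAt
      refine this.congr_of_eventuallyEq (Filter.Eventually.of_forall fun y => ?_)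
      simp [g]
    set A := ContinuousLinearMap.id ℝ E + fderiv ℝ g x with hA
    have hsq := hrd.norm_sq
    have hconst : HasFDerivAt (fun y => ‖r y‖ ^ 2) (0 : E →L[ℝ] ℝ) x := by
      refine (hasFDerivAt_const (R ^ 2) x).congr_of_eventuallyEq ?_
      filter_upwards [isOpen_ball.mem_nhds hx] with y hy
      rw [hnorm y (ball_subset_closedBall hy)]
    have hz := hsq.unique hconst
    by_contra hne
    have hu : IsUnit (A : E →ₗ[ℝ] E) :=
      (LinearMap.isUnit_iff_isUnit_det _).mpr (isUnit_iff_ne_zero.mpr hne)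
    have hsurj : Function.Surjective A := by
      have := (Module.End.isUnit_iff _).mp hu
      exact this.2
    obtain ⟨y, hy⟩ := hsurj (r x)
    have h3 := congrArg (fun B : E →L[ℝ] ℝ => B y) hz
    simp [hy] at h3
    have h4 := hnorm x (ball_subset_closedBall hx)
    rw [h3, norm_zero] at h4
    linarith
  have h3 : 0 < (μ (ball (0:E) R)).toReal :=
    ENNReal.toReal_pos (measure_ball_pos μ 0 hR).ne' measure_ball_lt_top.ne
  linarith

theorem zero_of_smooth {R : ℝ} (hR : 0 < R) (g : E → E) (hg : ContDiff ℝ 1 g)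
    (hout : ∀ x, R ≤ ‖x‖ → g x = 0) : ∃ x, ‖x‖ ≤ R ∧ x + g x = 0 := by
  by_contra hcon
  push Not at hcon
  have hne : ∀ x, x + g x ≠ 0 := by
    intro x
    rcases le_total ‖x‖ R with h | h
    · exact hcon x h
    · rw [hout x h, add_zero]
      intro h0
      rw [h0, norm_zero] at h
      linarith
  have hh : ContDiff ℝ 1 (fun x => x + g x) := contDiff_id.add hg
  refine no_retraction hR (fun x => (R / ‖x + g x‖) • (x + g x)) ?_ ?_ ?_
  · exact (contDiff_const.div (hh.norm ℝ hne) (fun x => norm_ne_zero_iff.mpr (hne x))).smul hh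
  · intro x _
    rw [norm_smul, Real.norm_of_nonneg (by positivity),
      div_mul_cancel₀ _ (norm_ne_zero_iff.mpr (hne x))]
  · intro x hx
    simp only [hout x hx.ge, add_zero, hx, div_self hR.ne', one_smul]

theorem fixed_of_bounded (F : E → E) (hF : Continuous F) {M : ℝ} (hM : ∀ x, ‖F x‖ ≤ M) :
    ∃ x, F x = x := by
  have hM0 : 0 ≤ M := le_trans (norm_nonneg _) (hM 0)
  let χ : E → ℝ := fun x => max 0 (min 1 (M + 1 - ‖x‖))
  have hχ : Continuous χ := by fun_prop
  let g0 : E → E := fun x => -(χ x • F x)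
  have hg0 : Continuous g0 := by fun_prop
  have hzero : ∃ x, x + g0 x = 0 := by
    by_contra hcon
    push Not at hcon
    have hpos : ∀ x, 0 < ‖x + g0 x‖ := fun x => norm_pos_iff.mpr (hcon x)
    obtain ⟨g, hg, happ, hsupp⟩ := hg0.exists_contDiff_approx 1
      (ε := fun x => ‖x + g0 x‖) (by fun_prop) hpos
    obtain ⟨x, _, hx⟩ := zero_of_smooth (R := M + 1) (by linarith) g hg (by
      intro x hx
      by_contra hne
      apply hsupp hne
      have : χ x = 0 := by
        simp only [χ]
        exact max_eq_left (le_trans (min_le_right _ _) (by linarith))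
      simp [g0, this])
    have h1 := happ x
    rw [dist_eq_norm, show g x = -x from eq_neg_of_add_eq_zero_right hx] at h1
    rw [show -x - g0 x = -(x + g0 x) by abel, norm_neg] at h1
    exact lt_irrefl _ h1
  obtain ⟨x, hx⟩ := hzero
  have hx' : x = χ x • F x := by
    simp only [g0] at hx
    exact add_neg_eq_zero.mp hx
  have hχ1 : χ x ≤ 1 := max_le zero_le_one (min_le_left _ _)
  have hχ0 : 0 ≤ χ x := le_max_left _ _
  have hn : ‖x‖ ≤ M := by
    rw [hx', norm_smul, Real.norm_of_nonneg hχ0]
    have := hM x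
    have := norm_nonneg (F x)
    nlinarith
  have : χ x = 1 := by
    simp only [χ]
    rw [min_eq_left (by linarith), max_eq_right zero_le_one]
  rw [this, one_smul] at hx'
  exact ⟨x, hx'.symm⟩

end General

/-- Brouwer fixed point theorem for a cube. -/
theorem brouwer_cube {ι : Type} [Fintype ι] {b : ℝ} (hb : 0 ≤ b) (f : (ι → ℝ) → (ι → ℝ))
    (hf : ContinuousOn f {a | ∀ i, |a i| ≤ b})
    (hmap : ∀ a : ι → ℝ, (∀ i, |a i| ≤ b) → ∀ i, |f a i| ≤ b) :
    ∃ a : ι → ℝ, (∀ i, |a i| ≤ b) ∧ f a = a := by
  let cl : EuclideanSpace ℝ ι → (ι → ℝ) := fun x i => max (-b) (min b (x i))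
  have hcl : Continuous cl := by
    refine continuous_pi fun i => ?_
    fun_prop
  have hclm : ∀ x i, |cl x i| ≤ b := fun x i =>
    abs_le.mpr ⟨le_max_left _ _, max_le (by linarith) (min_le_left _ _)⟩
  let F : EuclideanSpace ℝ ι → EuclideanSpace ℝ ι := fun x => WithLp.toLp 2 (f (cl x))
  have hF : Continuous F :=
    (PiLp.continuous_toLp 2 _).comp (hf.comp_continuous hcl hclm)
  have hM : ∀ x, ‖F x‖ ≤ Real.sqrt (∑ _i : ι, b ^ 2) := by
    intro x
    rw [EuclideanSpace.norm_eq]
    refine Real.sqrt_le_sqrt (Finset.sum_le_sum fun i _ => ?_)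
    have := hmap _ (hclm x) i
    rw [Real.norm_eq_abs]
    exact pow_le_pow_left₀ (abs_nonneg _) this 2
  obtain ⟨x, hx⟩ := fixed_of_bounded F hF hM
  have hxi : ∀ i, x i = f (cl x) i := fun i => by rw [← hx]; simp [F, hx]
  have hclx : cl x = fun i => x i := by
    funext i
    have := abs_le.mp (hmap _ (hclm x) i)
    rw [← hxi i] at this
    simp only [cl]
    rw [min_eq_right this.2, max_eq_right this.1]
  refine ⟨cl x, hclm x, ?_⟩
  funext i
  rw [← hxi i, hclx]

end Pool.Agent.MP_92c74b_an
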