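import Mathlib

set_option autoImplicit false

namespace Pool.Agent.MP_92c74b_an

section Schur

variable {T : Type} [AddCommGroup T] [Module ℝ T] {ι : Type} [Fintype ι] [DecidableEq ι]

/-- The Schur complement of a quadratic form with respect to linear constraints. -/
noncomputable def mm (B : T →ₗ[ℝ] T →ₗ[ℝ] ℝ) (X : T →ₗ[ℝ] (ι → ℝ)) (x : ι → ℝ) : ℝ :=
  sInf {r | ∃ u, X u = x ∧ B u u = r}

omit [DecidableEq ι] in
lemma mm_le {B : T →ₗ[ℝ] T →ₗ[ℝ] ℝ} {X : T →ₗ[ℝ] (ι → ℝ)} {C : ℝ}
    (hl : ∀ u, -C * ∑ i, X u i ^ 2 ≤ B u u) (u : T) : mm B X (X u) ≤ B u u := by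
  refine csInf_le ⟨-C * ∑ i, X u i ^ 2, ?_⟩ ⟨u, rfl, rfl⟩
  rintro r ⟨w, hw, rfl⟩
  rw [← hw]
  exact hl w

omit [Fintype ι] [DecidableEq ι] in
lemma le_mm {B : T →ₗ[ℝ] T →ₗ[ℝ] ℝ} {X : T →ₗ[ℝ] (ι → ℝ)} {x : ι → ℝ} (hx : ∃ u, X u = x)
    {a : ℝ} (ha : ∀ u, X u = x → a ≤ B u u) : a ≤ mm B X x := by
  obtain ⟨u, hu⟩ := hx
  refine le_csInf ⟨_, u, hu, rfl⟩ ?_
  rintro r ⟨w, hw, rfl⟩
  exact ha w hw

omit [Fintype ι] [DecidableEq ι] in
lemma exists_near {B : T →ₗ[ℝ] T →ₗ[ℝ] ℝ} {X : T →ₗ[ℝ] (ι → ℝ)} {x : ι → ℝ} (hx : ∃ u, X u = x)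
    {ε : ℝ} (hε : 0 < ε) : ∃ u, X u = x ∧ B u u ≤ mm B X x + ε := by
  by_contra hcon
  push Not at hcon
  have := le_mm (B := B) hx (a := mm B X x + ε) fun u hu => (hcon u hu).le
  linarith

lemma disc_le {b q ε : ℝ} (hq : 0 ≤ q) (h : ∀ t : ℝ, -ε ≤ 2 * t * b + t ^ 2 * q) :
    b ^ 2 ≤ ε * q := by
  have hε : 0 ≤ ε := by have := h 0; simp at this; linarith
  rcases hq.eq_or_lt with h0 | h0
  · subst h0
    by_contra hcon
    have hb : b ≠ 0 := by
      intro hb
      subst hb
      simp at hcon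
    have := h (-(ε + 1) / b)
    have e : 2 * (-(ε + 1) / b) * b = -2 * (ε + 1) := by field_simp
    rw [e] at this
    linarith
  · have := h (-b / q)
    have e : 2 * (-b / q) * b + (-b / q) ^ 2 * q = -(b ^ 2 / q) := by field_simp; ring
    rw [e, neg_le_neg_iff, div_le_iff₀ h0] at this
    exact this

theorem schur {B : T →ₗ[ℝ] T →ₗ[ℝ] ℝ} (hB : ∀ u w, B u w = B w u) {X : T →ₗ[ℝ] (ι → ℝ)} {C : ℝ}
    (hl : ∀ u, -C * ∑ i, X u i ^ 2 ≤ B u u) (hs : ∀ i, ∃ u, X u = Pi.single i 1) {η : ℝ}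
    (hη : 0 ≤ η)
    (hM : ∀ i j, mm B X (Pi.single i 1 + Pi.single j 1) - mm B X (Pi.single i 1)
      - mm B X (Pi.single j 1) = -2 * η) :
    (∀ u, ∑ i, X u i = 0 → 0 ≤ B u u) ∧
    (∀ ε : ℝ, 0 < ε → ∃ u : ι → T, (∀ i, X (u i) = Pi.single i 1) ∧
      ∀ x : ι → ℝ, B (∑ i, x i • u i) (∑ i, x i • u i) ≤ ε * (∑ i, |x i|) ^ 2) := by
  have hker : ∀ y, X y = 0 → 0 ≤ B y y := by
    intro y hy
    have := hl y
    simpa [hy] using this
  have main : ∀ ε : ℝ, 0 < ε → ∃ u : ι → T, (∀ i, X (u i) = Pi.single i 1) ∧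
      (∀ w : T, B (∑ i, X w i • u i) (∑ i, X w i • u i) - ε * (∑ i, |X w i|) ^ 2 ≤ B w w) ∧
      ∀ x : ι → ℝ, |B (∑ i, x i • u i) (∑ i, x i • u i) + η * (∑ i, x i) ^ 2|
        ≤ 2 * ε * (∑ i, |x i|) ^ 2 := by
    intro ε hε
    choose u hu1 hu2 using fun i => exists_near (B := B) (hs i) hε
    have hXU : ∀ x : ι → ℝ, X (∑ i, x i • u i) = x := by
      intro x
      rw [map_sum]
      simp only [map_smul, hu1]
      funext j
      simp [Finset.sum_apply, Pi.single_apply]
    have hcs : ∀ i y, X y = 0 → B (u i) y ^ 2 ≤ ε * B y y := by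
      intro i y hy
      refine disc_le (hker y hy) fun t => ?_
      have h1 := mm_le hl (u i + t • y)
      have h2 : X (u i + t • y) = Pi.single i 1 := by simp [hu1, hy]
      rw [h2] at h1
      have h3 : B (u i + t • y) (u i + t • y)
          = B (u i) (u i) + 2 * t * B (u i) y + t ^ 2 * B y y := by
        simp only [map_add, map_smul, LinearMap.add_apply, LinearMap.smul_apply, smul_eq_mul,
          hB y (u i)]
        ring
      have := hu2 i
      linarith
    have hlow : ∀ w : T, B (∑ i, X w i • u i) (∑ i, X w i • u i) - ε * (∑ i, |X w i|) ^ 2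
        ≤ B w w := by
      intro w
      set U := ∑ i, X w i • u i with hU
      set y := w - U with hy
      have hy0 : X y = 0 := by rw [hy, map_sub, hU, hXU, sub_self]
      have hw : w = U + y := by rw [hy]; abel
      have h1 : B w w = B U U + 2 * B U y + B y y := by
        conv_lhs => rw [hw]
        simp only [map_add, LinearMap.add_apply, hB y U]
        ring
      have hq := hker y hy0
      set sq := Real.sqrt (ε * B y y) with hsq
      have h2 : ∀ i, |B (u i) y| ≤ sq := fun i => Real.abs_le_sqrt (hcs i y hy0)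
      have h3 : |B U y| ≤ (∑ i, |X w i|) * sq := by
        rw [hU, map_sum, LinearMap.sum_apply, Finset.sum_mul]
        refine le_trans (Finset.abs_sum_le_sum_abs _ _) (Finset.sum_le_sum fun i _ => ?_)
        rw [map_smul, LinearMap.smul_apply, smul_eq_mul, abs_mul]
        exact mul_le_mul_of_nonneg_left (h2 i) (abs_nonneg _)
      have h4 : sq ^ 2 = ε * B y y := Real.sq_sqrt (by positivity)
      have h5 := neg_abs_le (B U y)
      set S := ∑ i, |X w i|
      have h6 : 2 * (S * sq) * ε ≤ (ε * S ^ 2 + B y y) * ε := by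
        nlinarith [sq_nonneg (ε * S - sq)]
      have h7 := le_of_mul_le_mul_right h6 hε
      linarith
    refine ⟨u, hu1, hlow, fun x => ?_⟩
    have hmm : ∀ w, mm B X (X w) ≤ B w w := mm_le hl
    have hBij : ∀ i j, |B (u i) (u j) + η| ≤ 2 * ε := by
      intro i j
      have e1 : B (u i + u j) (u i + u j) = B (u i) (u i) + 2 * B (u i) (u j) + B (u j) (u j) := by
        simp only [map_add, LinearMap.add_apply, hB (u j) (u i)]
        ring
      have hX : X (u i + u j) = Pi.single i 1 + Pi.single j 1 := by rw [map_add, hu1, hu1]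
      have a1 := hmm (u i + u j)
      rw [hX] at a1
      have a2 := hmm (u i)
      rw [hu1] at a2
      have a3 := hmm (u j)
      rw [hu1] at a3
      have a4 : B (u i + u j) (u i + u j) - 4 * ε
          ≤ mm B X (Pi.single i 1 + Pi.single j 1) := by
        refine le_mm ⟨_, hX⟩ fun w hw => ?_
        have b1 := hlow w
        have b2 : ∑ k, X w k • u k = u i + u j := by
          rw [hw]
          simp [add_smul, Finset.sum_add_distrib, Pi.single_apply]
        have b3 : ∑ k, |X w k| = 2 := by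
          rw [hw]
          have : ∀ k, |(Pi.single i (1:ℝ) + Pi.single j 1 : ι → ℝ) k|
              = (Pi.single i (1:ℝ) + Pi.single j 1 : ι → ℝ) k := by
            intro k
            apply abs_of_nonneg
            simp only [Pi.add_apply, Pi.single_apply]
            split_ifs <;> norm_num
          simp only [this]
          simp [Finset.sum_add_distrib]
          norm_num
        rw [b2, b3] at b1
        linarith
      have a5 := hM i j
      have a6 := hu2 i
      have a7 := hu2 j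
      rw [abs_le]
      constructor <;> linarith
    have e2 : B (∑ i, x i • u i) (∑ i, x i • u i) + η * (∑ i, x i) ^ 2
        = ∑ i, ∑ j, x i * x j * (B (u i) (u j) + η) := by
      rw [map_sum B, LinearMap.sum_apply, sq, Finset.sum_mul_sum, Finset.mul_sum,
        ← Finset.sum_add_distrib]
      refine Finset.sum_congr rfl fun i _ => ?_
      rw [map_sum, Finset.mul_sum, ← Finset.sum_add_distrib]
      refine Finset.sum_congr rfl fun j _ => ?_
      simp only [map_smul, LinearMap.smul_apply, smul_eq_mul]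
      ring
    rw [e2, sq, Finset.sum_mul_sum, Finset.mul_sum]
    refine le_trans (Finset.abs_sum_le_sum_abs _ _) (Finset.sum_le_sum fun i _ => ?_)
    rw [Finset.mul_sum]
    refine le_trans (Finset.abs_sum_le_sum_abs _ _) (Finset.sum_le_sum fun j _ => ?_)
    rw [abs_mul, abs_mul, mul_comm]
    exact mul_le_mul_of_nonneg_right (hBij i j) (by positivity)
  constructor
  · intro w hw
    refine le_of_forall_pos_le_add fun δ hδ => ?_
    set S := (∑ i, |X w i|) ^ 2 with hS
    have hS0 : 0 ≤ S := sq_nonneg _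
    obtain ⟨u, _, h2, h3⟩ := main (δ / (3 * S + 1)) (by positivity)
    have a1 := h2 w
    have a2 := (abs_le.mp (h3 (X w))).1
    rw [hw] at a2
    have a3 : δ / (3 * S + 1) * (3 * S) ≤ δ := by
      rw [div_mul_eq_mul_div, div_le_iff₀ (by positivity)]
      nlinarith
    nlinarith
  · intro ε hε
    obtain ⟨u, h1, _, h3⟩ := main (ε / 2) (by positivity)
    refine ⟨u, h1, fun x => ?_⟩
    have a2 := (abs_le.mp (h3 x)).2
    have a3 : 0 ≤ η * (∑ i, x i) ^ 2 := by positivity
    linarith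

end Schur

/-- On a finite dimensional space a bilinear form is dominated by a positive definite one. -/
lemma dominated {V : Type} [AddCommGroup V] [Module ℝ V] [FiniteDimensional ℝ V]
    (A B : V →ₗ[ℝ] V →ₗ[ℝ] ℝ) (hB : ∀ v, v ≠ 0 → 0 < B v v) :
    ∃ C : ℝ, ∀ v, v ≠ 0 → A v v / B v v ≤ C := by
  let b := Module.finBasis ℝ V
  let φ := b.equivFun.symm
  have hcont : ∀ F : V →ₗ[ℝ] V →ₗ[ℝ] ℝ,
      Continuous fun x : Fin (Module.finrank ℝ V) → ℝ => F (φ x) (φ x) := by
    intro F
    have : (fun x : Fin (Module.finrank ℝ V) → ℝ => F (φ x) (φ x))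
        = fun x => ∑ i, ∑ j, x i * x j * F (b i) (b j) := by
      funext x
      simp only [φ, Module.Basis.equivFun_symm_apply]
      rw [map_sum F, LinearMap.sum_apply]
      refine Finset.sum_congr rfl fun i _ => ?_
      rw [map_sum]
      refine Finset.sum_congr rfl fun j _ => ?_
      simp only [map_smul, LinearMap.smul_apply, smul_eq_mul]
      ring
    rw [this]
    fun_prop
  have hc : ContinuousOn (fun x : Fin (Module.finrank ℝ V) → ℝ => A (φ x) (φ x) / B (φ x) (φ x))
      (Metric.sphere 0 1) := by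
    refine (hcont A).continuousOn.div (hcont B).continuousOn fun x hx => (hB _ ?_).ne'
    intro h0
    have : x = 0 := by simpa using h0
    rw [this] at hx
    simp at hx
  obtain ⟨C, hC⟩ := (isCompact_sphere (0 : Fin (Module.finrank ℝ V) → ℝ) 1).exists_bound_of_continuousOn hc
  refine ⟨C, fun v hv => ?_⟩
  set x := b.equivFun v with hx
  have hx0 : x ≠ 0 := by
    intro h0
    apply hv
    have : b.equivFun v = 0 := h0
    simpa using this
  have hn : ‖x‖ ≠ 0 := norm_ne_zero_iff.mpr hx0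
  have h1 := hC (‖x‖⁻¹ • x) (by simp [norm_smul, hn])
  have h2 : φ (‖x‖⁻¹ • x) = ‖x‖⁻¹ • v := by
    rw [map_smul, hx]
    simp [φ]
  rw [h2] at h1
  simp only [map_smul, LinearMap.smul_apply, smul_eq_mul] at h1
  rw [mul_div_mul_left _ _ (inv_ne_zero hn), mul_div_mul_left _ _ (inv_ne_zero hn)] at h1
  exact le_trans (le_abs_self _) h1

end Pool.Agent.MP_92c74b_an
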